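import Pool.Agent.CRT.Defs

/-!
# CRT / Vert (11A, doc next/46f0ca_11; helper86): Q1 gives the regular variation of the numbers of walks: literals

`Cut s k`: a vertical line through the horizontal edge of the step `k` (even) separates the positions up to the time `k` from
the later ones. The first cut time after `k` is decided by the prefix, so the number of the walks with a cut time in a window
is EXACTLY a convolution with the numbers of half plane walks (`CutId`).
-/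

set_option autoImplicit false

open Set Filter Topology MeasureTheory
open scoped ENNReal Classical

namespace Pool.Agent.CRT.V

open Pool.Agent.NTS.Res

/-- `k` is a cut time -/
def Cut {n : ℕ} (s : Fin n → Fin 3) (k : ℕ) : Prop :=
  Even k ∧ k < n ∧ ∀ i j : ℕ, i ≤ k → k < j → j ≤ n → (pos s i).re < (pos s j).re

/-- the walks with a cut time in `[k, l]` -/
noncomputable def cutW (n k l : ℕ) : Finset (Fin n → Fin 3) :=
  (saw n).filter fun s => ∃ k' : ℕ, k ≤ k' ∧ k' ≤ l ∧ Cut s k'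

/-- the proportion of these walks -/
noncomputable def pC (n k l : ℕ) : ℝ := ((cutW n k l).card : ℝ) / (saw n).card

/-- half plane walks -/
noncomputable def Hh (m : ℕ) : ℕ := ((saw m).filter fun t => ∀ j : ℕ, 0 < j → j ≤ m → 0 < (pos t j).re).card

/-- critical weight of the half plane walks with `m` steps -/
noncomputable def Hw (m : ℕ) : ℝ := (Hh m : ℝ) * fug ^ m

/-- the walks with `k'` steps (even) that end at their largest abscissa, without a cut time in `[k, k')` -/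
noncomputable def Ck (k k' : ℕ) : ℕ := if Even k' then
  ((saw k').filter fun s => (∀ i : ℕ, i ≤ k' → (pos s i).re ≤ (pos s k').re) ∧ ∀ c : ℕ, k ≤ c → ¬ Cut s c).card else 0

/-- bridges (even number of steps) -/
noncomputable def Bb (j : ℕ) : ℕ := if Even j then
  ((saw j).filter fun t => (∀ i : ℕ, 0 < i → i ≤ j → 0 < (pos t i).re) ∧ ∀ i : ℕ, i ≤ j → (pos t i).re ≤ (pos t j).re).card
  else 0

/-- the walks with `k'` steps (even) that end at their largest abscissa -/
noncomputable def Rr (k' : ℕ) : ℕ := if Even k' then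
  ((saw k').filter fun s => ∀ i : ℕ, i ≤ k' → (pos s i).re ≤ (pos s k').re).card else 0

/-! ### V1: exact identities -/

/-- **V1**: the walks with a cut time in a window -/
def CutId : Prop := ∀ n k l : ℕ, l < n → (cutW n k l).card = ∑ c ∈ Finset.Icc k l, Ck k c * Hh (n - c)

/-- **V1'**: the walks that end at their largest abscissa, decomposed at their first cut time after `k` -/
def RrId : Prop := ∀ k k' : ℕ, k ≤ k' → Rr k' = ∑ c ∈ Finset.Icc k k', Ck k c * Bb (k' - c)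

/-- **V1''**: the walks that end at their largest abscissa are reversed half plane walks -/
def RrHh : Prop := ∀ k : ℕ, Even k → Rr k = Hh (k + 1)

/-! ### V2: orders of magnitude -/

/-- **V2**: the half plane walks, every number of steps -/
def HBd : Prop := ∃ c C : ℝ, 0 < c ∧ 0 < C ∧ ∀ m : ℕ, 1 ≤ m → c * (m : ℝ) ^ (-(3 / 64) : ℝ) ≤ Hw m ∧
  Hw m ≤ C * (m : ℝ) ^ (-(3 / 64) : ℝ)

/-- **V2'**: the bridges with at most `J` steps -/
def BSum : Prop := ∃ c C : ℝ, 0 < c ∧ 0 < C ∧ ∀ J : ℕ, 1 ≤ J → c * (J : ℝ) ^ (9 / 16 : ℝ) ≤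
  ∑ j ∈ Finset.range (J + 1), (Bb j : ℝ) * fug ^ j ∧
  ∑ j ∈ Finset.range (J + 1), (Bb j : ℝ) * fug ^ j ≤ C * (J : ℝ) ^ (9 / 16 : ℝ)

/-- **V2''** (from V1, V1', V1'', V2, V2'): cut times exist in every window, and not in very short windows -/
def PBd : Prop := ∀ σ : ℝ, 0 < σ → ∃ c C : ℝ, 0 < c ∧ 0 < C ∧ ∀ n k l : ℕ, σ * n ≤ k → k ≤ l → (l : ℝ) ≤ (1 - σ) * n →
  (σ * n ≤ (l : ℝ) - k → c ≤ pC n k l) ∧ pC n k l ≤ C * (((l : ℝ) - k + 1) / n) ^ (7 / 16 : ℝ)

/-! ### V3: limits -/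

/-- `u` in `[σ, τ]` is a cut time up to `ε` -/
def Nc (ε σ τ : ℝ) : Set CI := {γ | ∃ u : unitInterval, σ ≤ u ∧ (u : ℝ) ≤ τ ∧
  ∀ v w : unitInterval, v ≤ u → u ≤ w → (γ v).re ≤ (γ w).re + ε}

/-- **V5** = (K): an approximate cut time comes with a lattice cut time near by -/
def KSt : Prop := ∀ σ σ' τ' τ : ℝ, 0 < σ → σ < σ' → σ' ≤ τ' → τ' < τ → τ < 1 → ∀ e : ℝ, 0 < e → ∃ ε : ℝ, 0 < ε ∧ ∃ n0 : ℕ,
  ∀ n : ℕ, n0 ≤ n → (law n (Nc ε σ' τ')).toReal ≤ pC n ⌈σ * n⌉₊ ⌊τ * n⌋₊ + e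

/-- **V3** (from V5, V2''): the limits of the proportions -/
def LimE : Prop := Q1 → ∀ u κ δ : ℝ, 0 < κ → 0 < δ → κ + δ < u → ∃ p : ℝ, 0 < p ∧
  Tendsto (fun m : ℕ => pC ⌊u * m⌋₊ ⌊κ * m⌋₊ ⌊(κ + δ) * m⌋₊) atTop (𝓝 p)

/-- **V4** (from V1, V2, V3; hypotheses of the theorem: CutId, HBd, LimE) -/
def QRv : Prop := Q1 → RVa

end Pool.Agent.CRT.V
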